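import Pool.Agent.H92.KST.TargetsX

/-!
# The integral closure of a localisation (row LOCX)
-/

set_option autoImplicit false
set_option linter.dupNamespace false

universe u

namespace Pool.Agent.H98.KST

open Pool.Agent.H92.KST Pool.Agent.H62.MK Pool.Agent.H19.KN

section

variable {F : Type u} [Field F]

theorem le_loc {O Oy : Subring F} {y : Ideal O} (hy : y.IsPrime)
    (h : ∀ x : F, x ∈ Oy ↔ LocMem O y x) : O ≤ Oy := by
  intro x hx
  rw [h]
  refine ⟨1, ?_, ?_⟩
  · intro h1
    exact hy.ne_top ((Ideal.eq_top_iff_one y).2 h1)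
  · simpa using hx

theorem inv_mem_loc {O Oy : Subring F} {y : Ideal O}
    (h : ∀ x : F, x ∈ Oy ↔ LocMem O y x) (s : O) (hs : s ∉ y) : (s : F)⁻¹ ∈ Oy := by
  have hs0 : (s : F) ≠ 0 := by
    intro h0
    apply hs
    have : s = 0 := Subtype.ext h0
    rw [this]
    exact y.zero_mem
  rw [h]
  refine ⟨s, hs, ?_⟩
  rw [mul_inv_cancel₀ hs0]
  exact O.one_mem

theorem locx_forward {O Oy : Subring F} {y : Ideal O} (hy : y.IsPrime)
    (h : ∀ x : F, x ∈ Oy ↔ LocMem O y x) (x : F) (hx : IsIntegral Oy x) :
    ∃ m : O, m ∉ y ∧ IsIntegral O ((m : F) * x) := by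
  letI : Algebra O Oy := (Subring.inclusion (le_loc hy h)).toAlgebra
  haveI : IsScalarTower O Oy F := IsScalarTower.of_algebraMap_eq (fun _ => rfl)
  haveI : IsLocalization y.primeCompl Oy := by
    refine ⟨?_, ?_, ?_⟩
    · intro s
      refine ⟨⟨(Subring.inclusion (le_loc hy h)) s, ⟨_, inv_mem_loc h s.1 s.2⟩, ?_, ?_⟩, rfl⟩
      · apply Subtype.ext
        show ((s : O) : F) * ((s : O) : F)⁻¹ = 1
        apply mul_inv_cancel₀
        intro h0
        apply s.2
        have : (s : O) = 0 := Subtype.ext h0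
        rw [this]
        exact y.zero_mem
      · apply Subtype.ext
        show ((s : O) : F)⁻¹ * ((s : O) : F) = 1
        apply inv_mul_cancel₀
        intro h0
        apply s.2
        have : (s : O) = 0 := Subtype.ext h0
        rw [this]
        exact y.zero_mem
    · intro z
      obtain ⟨s, hs, hsz⟩ := (h z).1 z.2
      refine ⟨(⟨(s : F) * z, hsz⟩, ⟨s, hs⟩), ?_⟩
      apply Subtype.ext
      show (z : F) * (s : F) = (s : F) * z
      ring
    · intro a b hab
      refine ⟨1, ?_⟩
      have h1 : (a : F) = (b : F) := congrArg (fun z : Oy => (z : F)) hab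
      rw [Subtype.ext h1]
  obtain ⟨m, hm⟩ := IsIntegral.exists_multiple_integral_of_isLocalization (M := y.primeCompl)
    (Rₘ := Oy) (S := F) x hx
  exact ⟨m.1, m.2, hm⟩

/-- the denominators of `x` -/
def den (O : Subring F) (x : F) : Ideal (integralClosure O F) where
  carrier := {t | (t : F) * x ∈ integralClosure O F}
  zero_mem' := by
    show ((0 : integralClosure O F) : F) * x ∈ integralClosure O F
    rw [ZeroMemClass.coe_zero, zero_mul]
    exact zero_mem _
  add_mem' := by
    intro a b ha hb
    show ((a + b : integralClosure O F) : F) * x ∈ integralClosure O F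
    rw [AddMemClass.coe_add, add_mul]
    exact add_mem ha hb
  smul_mem' := by
    intro c a ha
    show ((c * a : integralClosure O F) : F) * x ∈ integralClosure O F
    rw [MulMemClass.coe_mul, mul_assoc]
    exact mul_mem c.2 ha

theorem locx_back {O Oy : Subring F} {y : Ideal O} (hy : y.IsPrime)
    (h : ∀ x : F, x ∈ Oy ↔ LocMem O y x) (x : F)
    (hx : InL (R := integralClosure O F) (Over O y) x) : IsIntegral Oy x := by
  obtain ⟨s, r, hs0, hsQ, hsr⟩ := hx
  have hsI : s ∈ den O x := by
    show (s : F) * x ∈ integralClosure O F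
    have : (s : F) * x = (r : F) := hsr
    rw [this]
    exact r.2
  have hex : ∃ t : O, t ∉ y ∧ algebraMap O (integralClosure O F) t ∈ den O x := by
    by_contra hcon
    push Not at hcon
    have hle : (den O x).comap (algebraMap O (integralClosure O F)) ≤ y := by
      intro t ht
      by_contra hty
      exact hcon t hty ht
    obtain ⟨Q, hQ1, hQ2, hQ3⟩ := Ideal.exists_ideal_over_prime_of_isIntegral y (den O x) hle
    exact hsQ Q ⟨hQ2, hQ3⟩ (hQ1 hsI)
  obtain ⟨t, hty, ht⟩ := hex
  have ht' : IsIntegral O ((t : F) * x) := ht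
  letI : Algebra O Oy := (Subring.inclusion (le_loc hy h)).toAlgebra
  haveI : IsScalarTower O Oy F := IsScalarTower.of_algebraMap_eq (fun _ => rfl)
  have h1 : IsIntegral Oy ((t : F) * x) := ht'.tower_top
  have h2 : IsIntegral Oy ((t : F)⁻¹) :=
    isIntegral_algebraMap (x := (⟨(t : F)⁻¹, inv_mem_loc h t hty⟩ : Oy))
  have ht0 : (t : F) ≠ 0 := by
    intro h0
    apply hty
    have : t = 0 := Subtype.ext h0
    rw [this]
    exact y.zero_mem
  have h3 : x = (t : F)⁻¹ * ((t : F) * x) := by
    rw [← mul_assoc, inv_mul_cancel₀ ht0, one_mul]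
  rw [h3]
  exact h2.mul h1

end

theorem pf_LOCX (hGENF : T_GENF.{u}) : T_LOCX.{u} := by
  intro F _ O π q E hPt Oy hOy y hy x
  have h := hOy y hy
  constructor
  · intro hx
    have hx' : IsIntegral (Oy y) x := hx
    obtain ⟨m, hmy, hm⟩ := locx_forward hy h x hx'
    refine ⟨algebraMap O (integralClosure O F) m, ⟨(m : F) * x, hm⟩, ?_, ?_, ?_⟩
    · intro h0
      apply hmy
      have h1 : (m : F) = 0 := congrArg Subtype.val h0
      have : m = 0 := Subtype.ext h1
      rw [this]
      exact y.zero_mem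
    · intro Q hQ hmQ
      apply hmy
      rw [← hQ.2]
      exact hmQ
    · rfl
  · intro hx
    exact locx_back hy h x hx

end Pool.Agent.H98.KST
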